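import Pool.Agent.H12.KG.Targets

/-! Row PTS of the board `kpg_modules` (project KEW, MP_7b949a_ag). -/

set_option autoImplicit false

namespace Pool.Agent.H67.KG

open AlgebraicGeometry CategoryTheory Pool.Agent.H12.KP Pool.Agent.H12.KG

universe u

/-- A point is in the special fibre iff `π` lies in the prime ideal of its image. -/
theorem sp_iff {X : Scheme.{u}} {A : Type u} [CommRing A] (f : X ⟶ Spec (CommRingCat.of A))
    (π : A) (x : X) : Sp f π x ↔ π ∈ (f x).asIdeal := by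
  have h1 : f ⁻¹ᵁ (Spec (CommRingCat.of A)).basicOpen
      ((Scheme.ΓSpecIso (CommRingCat.of A)).inv π) =
      X.basicOpen (f.appTop ((Scheme.ΓSpecIso (CommRingCat.of A)).inv π)) :=
    Scheme.preimage_basicOpen_top f _
  have h2 : x ∈ X.basicOpen (f.appTop ((Scheme.ΓSpecIso (CommRingCat.of A)).inv π)) ↔
      IsUnit (stA f x π) := Scheme.mem_basicOpen_top X _ x
  have h3 : x ∈ f ⁻¹ᵁ (Spec (CommRingCat.of A)).basicOpen
      ((Scheme.ΓSpecIso (CommRingCat.of A)).inv π) ↔ π ∉ (f x).asIdeal := by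
    have h4 := basicOpen_eq_of_affine (R := CommRingCat.of A) π
    rw [h4]
    exact Iff.rfl
  rw [Sp, ← h2, ← h1, h3, not_not]

section

variable {A S : Type u} [CommRing A] [CommRing S] [Algebra A S] (𝒮 : ℕ → Submodule A S)
  [GradedAlgebra 𝒮]

theorem irr_le (hadj : Algebra.adjoin A (𝒮 1 : Set S) = ⊤) (P : Ideal S)
    (hP : (𝒮 1 : Set S) ⊆ P) (z : S) (hz : z ∈ (HomogeneousIdeal.irrelevant 𝒮).toIdeal) :
    z ∈ P := by
  have key : ∀ s : S, s - GradedRing.projZeroRingHom 𝒮 s ∈ P := by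
    intro s
    have hs : s ∈ Algebra.adjoin A (𝒮 1 : Set S) := by rw [hadj]; trivial
    induction hs using Algebra.adjoin_induction with
    | mem x hx =>
      have h0 : GradedRing.projZeroRingHom 𝒮 x = 0 := by
        rw [GradedRing.projZeroRingHom_apply]
        exact DirectSum.decompose_of_mem_ne 𝒮 hx one_ne_zero
      rw [h0, sub_zero]
      exact hP hx
    | algebraMap r =>
      have h0 : GradedRing.projZeroRingHom 𝒮 (algebraMap A S r) = algebraMap A S r := by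
        rw [GradedRing.projZeroRingHom_apply]
        exact DirectSum.decompose_of_mem_same 𝒮 (SetLike.algebraMap_mem_graded 𝒮 r)
      rw [h0, sub_self]
      exact P.zero_mem
    | add x y _ _ hx hy =>
      rw [map_add, add_sub_add_comm]
      exact P.add_mem hx hy
    | mul x y _ _ hx hy =>
      have e : x * y - GradedRing.projZeroRingHom 𝒮 (x * y) =
          x * (y - GradedRing.projZeroRingHom 𝒮 y) +
          GradedRing.projZeroRingHom 𝒮 y * (x - GradedRing.projZeroRingHom 𝒮 x) := by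
        rw [map_mul]; ring
      rw [e]
      exact P.add_mem (P.mul_mem_left _ hy) (P.mul_mem_left _ hx)
  have h1 := key z
  have h2 : GradedRing.projZeroRingHom 𝒮 z = 0 := by
    rw [GradedRing.projZeroRingHom_apply, ← GradedRing.proj_apply]
    exact (HomogeneousIdeal.mem_irrelevant_iff 𝒮 z).1 hz
  rwa [h2, sub_zero] at h1

theorem rel_idl (hadj : Algebra.adjoin A (𝒮 1 : Set S) = ⊤) (x : Proj 𝒮) :
    Rel 𝒮 (idl 𝒮 x) := by
  obtain ⟨y, hy⟩ : ∃ y : ProjectiveSpectrum 𝒮, y = x := ⟨x, rfl⟩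
  have e : idl 𝒮 x = y.asHomogeneousIdeal.toIdeal := by rw [hy]; rfl
  rw [e]
  refine ⟨y.isPrime, y.asHomogeneousIdeal.isHomogeneous, fun h => y.not_irrelevant_le ?_⟩
  intro z hz
  exact irr_le 𝒮 hadj _ h z hz

theorem exists_pt (P : Ideal S) (hP : Rel 𝒮 P) : ∃ x : Proj 𝒮, idl 𝒮 x = P := by
  obtain ⟨h1, h2, h3⟩ := hP
  refine ⟨(⟨⟨P, h2⟩, h1, fun h => h3 fun s hs => ?_⟩ : ProjectiveSpectrum 𝒮), rfl⟩
  exact h (HomogeneousIdeal.mem_irrelevant_of_mem 𝒮 one_pos hs)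

theorem spec_iff (x y : Proj 𝒮) : x ⤳ y ↔ idl 𝒮 x ≤ idl 𝒮 y := by
  rw [specializes_iff_mem_closure]
  exact (ProjectiveSpectrum.le_iff_mem_closure (𝒜 := 𝒮) x y).symm

theorem idl_inj (x y : Proj 𝒮) (h : idl 𝒮 x = idl 𝒮 y) : x = y := by
  have h1 : (show ProjectiveSpectrum 𝒮 from x) = (show ProjectiveSpectrum 𝒮 from y) := by
    apply ProjectiveSpectrum.ext
    exact HomogeneousIdeal.toIdeal_injective h
  exact h1

theorem closed_iff (hadj : Algebra.adjoin A (𝒮 1 : Set S) = ⊤) (x : Proj 𝒮) :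
    IsClosed ({x} : Set (Proj 𝒮)) ↔ ∀ Q : Ideal S, Rel 𝒮 Q → idl 𝒮 x ≤ Q → Q = idl 𝒮 x := by
  constructor
  · intro h Q hQ hle
    obtain ⟨y, hy⟩ := exists_pt 𝒮 Q hQ
    rw [← hy] at hle ⊢
    have h1 := (spec_iff 𝒮 x y).2 hle
    rw [specializes_iff_mem_closure, h.closure_eq] at h1
    rw [Set.mem_singleton_iff.1 h1]
  · intro h
    apply isClosed_of_closure_subset
    intro y hy
    have h1 : idl 𝒮 x ≤ idl 𝒮 y := (spec_iff 𝒮 x y).1 (specializes_iff_mem_closure.2 hy)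
    have h2 := h _ (rel_idl 𝒮 hadj y) h1
    exact Set.mem_singleton_iff.2 (idl_inj 𝒮 y x h2)

theorem sp_proj (hadj : Algebra.adjoin A (𝒮 1 : Set S) = ⊤) (π : A) (x : Proj 𝒮) :
    Sp (projStr 𝒮) π x ↔ algebraMap A S π ∈ idl 𝒮 x := by
  rw [sp_iff]
  have hx := rel_idl 𝒮 hadj x
  obtain ⟨f, hf, hfx⟩ := Set.not_subset.1 hx.2.2
  have hf1 : f ∈ 𝒮 1 := hf
  have hg1 : algebraMap A S π * f ∈ 𝒮 1 := by
    rw [← Algebra.smul_def]
    exact (𝒮 1).smul_mem π hf1
  have hxf : x ∈ (Proj.awayι 𝒮 f hf1 one_pos).opensRange := by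
    rw [Proj.opensRange_awayι]
    exact hfx
  obtain ⟨q, hq⟩ := hxf
  have hq' : (Proj.awayι 𝒮 f hf1 one_pos) q = x := hq
  have h1 : Proj.awayι 𝒮 f hf1 one_pos ≫ projStr 𝒮 =
      Spec.map (CommRingCat.ofHom ((HomogeneousLocalization.fromZeroRingHom 𝒮
        (Submonoid.powers f)).comp (algebraMap A (𝒮 0)))) := by
    rw [projStr, Proj.awayι_toSpecZero_assoc, ← Spec.map_comp]
    rfl
  have h2 : projStr 𝒮 x = Spec.map (CommRingCat.ofHom ((HomogeneousLocalization.fromZeroRingHom 𝒮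
        (Submonoid.powers f)).comp (algebraMap A (𝒮 0)))) q := by
    rw [← h1, ← hq']
    rfl
  have h3 := Proj.awayι_preimage_basicOpen 𝒮 hf1 one_pos hg1 one_pos
  have h4 : q ∈ (Proj.awayι 𝒮 f hf1 one_pos) ⁻¹ᵁ Proj.basicOpen 𝒮 (algebraMap A S π * f) ↔
      algebraMap A S π * f ∉ idl 𝒮 x := by
    rw [← hq']
    exact Iff.rfl
  rw [h3] at h4
  have h5 : HomogeneousLocalization.Away.isLocalizationElem hf1 hg1 =
      HomogeneousLocalization.fromZeroRingHom 𝒮 (Submonoid.powers f) (algebraMap A (𝒮 0) π) := by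
    ext
    have e1 : (HomogeneousLocalization.Away.isLocalizationElem hf1 hg1).val =
        Localization.mk ((algebraMap A S π * f) ^ 1)
          (⟨f ^ 1, ⟨1, rfl⟩⟩ : Submonoid.powers f) := rfl
    have e2 : (HomogeneousLocalization.fromZeroRingHom 𝒮 (Submonoid.powers f)
        (algebraMap A (𝒮 0) π)).val = Localization.mk (algebraMap A S π) 1 := rfl
    rw [e1, e2]
    refine Localization.mk_eq_mk_iff.mpr ?_
    rw [Localization.r_iff_exists]
    refine ⟨1, ?_⟩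
    simp only [OneMemClass.coe_one, one_mul, pow_one]
    ring
  have h6 : algebraMap A S π * f ∈ idl 𝒮 x ↔ algebraMap A S π ∈ idl 𝒮 x := by
    constructor
    · intro h
      exact (hx.1.mem_or_mem h).resolve_right hfx
    · intro h
      exact Ideal.mul_mem_right _ _ h
  rw [← h6, ← not_iff_not, ← h4, h5, h2]
  exact Iff.rfl

end

theorem pf_PTS : S_PTS.{u} := by
  intro A S _ _ _ 𝒮 _ hadj
  exact ⟨rel_idl 𝒮 hadj, exists_pt 𝒮, spec_iff 𝒮, idl_inj 𝒮, closed_iff 𝒮 hadj,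
    sp_proj 𝒮 hadj⟩

end Pool.Agent.H67.KG
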