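import Pool.Agent.H12.KG.Targets

/-! Row QPT of the board `kpg_modules` (project KEW, MP_7b949a_ag). -/

set_option autoImplicit false

namespace Pool.Agent.H67.KG

open AlgebraicGeometry CategoryTheory Pool.Agent.H12.KP Pool.Agent.H12.KG

universe u

section

variable {A S : Type u} [CommRing A] [CommRing S] [Algebra A S] (𝒮 : ℕ → Submodule A S)
  [GradedAlgebra 𝒮] (w : Ideal S)

theorem mk_mem_qgr {n : ℕ} {s : S} (hs : s ∈ 𝒮 n) : Ideal.Quotient.mk w s ∈ qgr 𝒮 w n :=
  ⟨s, hs, rfl⟩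

/-- The components of the image. -/
theorem decompose_mk [GradedAlgebra (qgr 𝒮 w)] (s : S) (n : ℕ) :
    (DirectSum.decompose (qgr 𝒮 w) (Ideal.Quotient.mk w s) n : S ⧸ w) =
      Ideal.Quotient.mk w (DirectSum.decompose 𝒮 s n : S) := by
  induction s using DirectSum.Decomposition.inductionOn 𝒮 with
  | zero => simp
  | homogeneous m =>
    rename_i i
    have h1 : Ideal.Quotient.mk w (m : S) ∈ qgr 𝒮 w i := mk_mem_qgr 𝒮 w m.2
    by_cases h : i = n
    · subst h
      rw [DirectSum.decompose_of_mem_same (qgr 𝒮 w) h1, DirectSum.decompose_of_mem_same 𝒮 m.2]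
    · rw [DirectSum.decompose_of_mem_ne (qgr 𝒮 w) h1 h, DirectSum.decompose_of_mem_ne 𝒮 m.2 h,
        map_zero]
  | add m m' hm hm' =>
    rw [map_add, DirectSum.decompose_add, DirectSum.decompose_add, DirectSum.add_apply,
      DirectSum.add_apply, Submodule.coe_add, Submodule.coe_add, map_add, hm, hm']

end

theorem pf_QPT : S_QPT.{u} := by
  intro A S _ _ _ 𝒮 _ w _
  have hsurj : Function.Surjective (Ideal.Quotient.mk w) := Ideal.Quotient.mk_surjective
  refine ⟨?_, ?_⟩
  · intro P hwP hP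
    obtain ⟨h1, h2, h3⟩ := hP
    have hmem : ∀ s : S, Ideal.Quotient.mk w s ∈ P.map (Ideal.Quotient.mk w) → s ∈ P := by
      intro s hs
      obtain ⟨t, ht, hts⟩ := (Ideal.mem_map_iff_of_surjective _ hsurj).1 hs
      have h4 : t - s ∈ w := (Ideal.Quotient.mk_eq_mk_iff_sub_mem t s).1 hts
      have h5 : s = t - (t - s) := by ring
      rw [h5]
      exact P.sub_mem ht (hwP h4)
    refine ⟨?_, ?_, ?_⟩
    · exact Ideal.map_isPrime_of_surjective hsurj (by rw [Ideal.mk_ker]; exact hwP)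
    · intro n z hz
      obtain ⟨s, hs, rfl⟩ := (Ideal.mem_map_iff_of_surjective _ hsurj).1 hz
      rw [decompose_mk]
      exact Ideal.mem_map_of_mem _ (h2 n hs)
    · intro h
      apply h3
      intro s hs
      exact hmem s (h (mk_mem_qgr 𝒮 w hs))
  · intro Q hQ
    obtain ⟨h1, h2, h3⟩ := hQ
    refine ⟨Ideal.comap_isPrime _ _, ?_, ?_⟩
    · intro n s hs
      rw [Ideal.mem_comap, ← decompose_mk]
      exact h2 n hs
    · intro h
      apply h3
      rintro z ⟨s, hs, rfl⟩
      exact h hs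

end Pool.Agent.H67.KG
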